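import Pool.Agent.P8H82.FF.Stm3
import Pool.Agent.P8H82.WS.Sem

set_option autoImplicit false

/-!
# Project FF: package INV
-/

namespace Pool.Agent.P8H80.FF

open NumberField IsDedekindDomain
open Pool.Agent.Y729.AH (EE Pm AA cond T2 Iso cl SemiAt pm_change pm_EE)
open Pool.Agent.TH876.FH (GoodAt)
open Pool.Agent.P8H82.FF (Ok crv Tw rp S_INV)

theorem semi_change {K : Type} [Field K] [NumberField K] (v : HeightOneSpectrum (𝓞 K))
    (E : WeierstrassCurve K) (C : WeierstrassCurve.VariableChange K) :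
    SemiAt v (C • E) ↔ SemiAt v E := by
  constructor
  · rintro ⟨C', h⟩
    exact ⟨C' * C, by rw [mul_smul]; exact h⟩
  · rintro ⟨C', h⟩
    refine ⟨C' * C⁻¹, ?_⟩
    rw [mul_smul, inv_smul_smul]
    exact h

theorem good_change {K : Type} [Field K] [NumberField K] (v : HeightOneSpectrum (𝓞 K))
    (E : WeierstrassCurve K) (C : WeierstrassCurve.VariableChange K) :
    GoodAt v (C • E) ↔ GoodAt v E := by
  constructor
  · rintro ⟨C', h⟩
    exact ⟨C' * C, by rw [mul_smul]; exact h⟩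
  · rintro ⟨C', h⟩
    refine ⟨C' * C⁻¹, ?_⟩
    rw [mul_smul, inv_smul_smul]
    exact h

theorem cond_change {K : Type} [Field K] [NumberField K]
    (E : WeierstrassCurve K) (C : WeierstrassCurve.VariableChange K) : cond (C • E) = cond E := by
  unfold Pool.Agent.Y729.AH.cond
  simp only [semi_change, good_change]

theorem pm_iff {K : Type} [Field K] [NumberField K]
    (E : WeierstrassCurve K) (C : WeierstrassCurve.VariableChange K) :
    (∃ a b, Pm (C • E) a b) ↔ ∃ a b, Pm E a b := by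
  constructor
  · rintro ⟨a, b, h⟩
    have := pm_change h C⁻¹
    rw [inv_smul_smul] at this
    exact ⟨_, _, this⟩
  · rintro ⟨a, b, h⟩
    exact ⟨_, _, pm_change h C⟩

/-- package **INV** -/
theorem inv : S_INV := by
  intro K _ _
  refine ⟨fun E C => ⟨cond_change E C, Pool.Agent.P8H82.WS.j_change C E, pm_iff E C⟩, fun p hp => ?_⟩
  have hd : rp p.2 ≠ 0 := Units.ne_zero _
  have hne : rp p.2 ≠ rp p.2 * p.1 := fun h => hp.2 (mul_left_cancel₀ hd (by rw [← h, mul_one]))
  have hpm := pm_EE hd (mul_ne_zero hd hp.1) hne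
  have h2 : (1 : K) - p.1 ≠ 0 := sub_ne_zero.2 (Ne.symm hp.2)
  have h3 := hp.1
  have h16 : (16 : K) ≠ 0 := by norm_num
  have h1 : (crv p).Δ = 16 * rp p.2 ^ 6 * p.1 ^ 2 * (1 - p.1) ^ 2 := by
    unfold crv EE WeierstrassCurve.Δ WeierstrassCurve.b₂ WeierstrassCurve.b₄
      WeierstrassCurve.b₆ WeierstrassCurve.b₈
    ring
  have h4 : (crv p).c₄ = 16 * rp p.2 ^ 2 * (p.1 ^ 2 - p.1 + 1) := by
    unfold crv EE WeierstrassCurve.c₄ WeierstrassCurve.b₂ WeierstrassCurve.b₄
    ring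
  refine ⟨?_, ⟨_, _, hpm⟩, ?_⟩
  · rw [h1]
    exact mul_ne_zero (mul_ne_zero (mul_ne_zero h16 (pow_ne_zero _ hd)) (pow_ne_zero _ h3))
      (pow_ne_zero _ h2)
  · rw [h1, h4]
    unfold Pool.Agent.P8H82.WS.jL
    generalize rp p.2 = d at *
    field_simp
    ring

end Pool.Agent.P8H80.FF
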